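import Mathlib
import Pool.Agent.R503.SIC.Base

set_option autoImplicit false

/-! # Quadratic phases fixing a Weyl–Heisenberg SIC fiducial -/

namespace Pool.Agent.H371.SICF

open Finset Complex
open scoped ComplexConjugate
open Pool.Agent.R503.SIC

variable {d : ℕ} [NeZero d]

theorem parseval (f : ZMod d → ℂ) :
    ∑ b : ZMod d, ‖∑ j, f j * e (b * j)‖ ^ 2 = d * ∑ j, ‖f j‖ ^ 2 := by
  have h : ((∑ b : ZMod d, ‖∑ j, f j * e (b * j)‖ ^ 2 : ℝ) : ℂ)
      = ((d * ∑ j, ‖f j‖ ^ 2 : ℝ) : ℂ) := by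
    push_cast
    have h1 : ∀ b : ZMod d, ((‖∑ j, f j * e (b * j)‖ : ℂ)) ^ 2
        = ∑ j, ∑ k, (conj (f j) * f k) * e (b * (k - j)) := by
      intro b
      have h2 := (conj_mul_self' (∑ j, f j * e (b * j))).symm
      rw [Complex.ofReal_pow] at h2
      rw [h2, map_sum, Finset.sum_mul_sum]
      refine Finset.sum_congr rfl fun j _ => Finset.sum_congr rfl fun k _ => ?_
      rw [map_mul, conj_e]
      have h3 : e (b * (k - j)) = e (-(b * j)) * e (b * k) := by
        rw [← e_add]; congr 1; ring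
      rw [h3]; ring
    rw [Finset.sum_congr rfl fun b _ => h1 b, Finset.sum_comm]
    have h4 : ∀ j : ZMod d, ∑ b : ZMod d, ∑ k, (conj (f j) * f k) * e (b * (k - j))
        = d * (conj (f j) * f j) := by
      intro j
      rw [Finset.sum_comm, Finset.sum_eq_single j]
      · rw [← Finset.mul_sum, sum_e, if_pos (sub_self j)]; ring
      · intro k _ hk
        rw [← Finset.mul_sum, sum_e, if_neg (sub_ne_zero.2 hk), mul_zero]
      · intro h; exact absurd (Finset.mem_univ _) h
    rw [Finset.sum_congr rfl fun j _ => h4 j, ← Finset.mul_sum]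
    congr 1
    refine Finset.sum_congr rfl fun j _ => ?_
    rw [conj_mul_self', Complex.ofReal_pow]
  exact_mod_cast h

theorem autocorr {ψ : ZMod d → ℂ} (h : Fid ψ) (a : ZMod d) :
    ∑ j, ‖ψ j‖ ^ 2 * ‖ψ (j + a)‖ ^ 2 = (if a = 0 then 2 else 1) / ((d : ℝ) + 1) := by
  have hd : (0 : ℝ) < d := by exact_mod_cast Nat.pos_of_ne_zero (NeZero.ne d)
  have h1 := parseval (fun j => conj (ψ (j + a)) * ψ j)
  have h2 : ∀ b : ZMod d, ∑ j, conj (ψ (j + a)) * ψ j * e (b * j) = ov ψ a b := by
    intro b; unfold ov; exact Finset.sum_congr rfl fun j _ => by ring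
  have h3 : ∀ j : ZMod d, ‖conj (ψ (j + a)) * ψ j‖ ^ 2 = ‖ψ j‖ ^ 2 * ‖ψ (j + a)‖ ^ 2 := by
    intro j; rw [norm_mul, norm_conj']; ring
  simp only [h2, h3] at h1
  have h4 : ∑ b : ZMod d, ‖ov ψ a b‖ ^ 2 = d * ((if a = 0 then 2 else 1) / ((d : ℝ) + 1)) := by
    by_cases ha : a = 0
    · subst ha
      rw [if_pos rfl, ← Finset.add_sum_erase _ _ (Finset.mem_univ (0 : ZMod d)), ov_zero h.1]
      have h5 : ∀ b ∈ Finset.univ.erase (0 : ZMod d), ‖ov ψ 0 b‖ ^ 2 = 1 / ((d : ℝ) + 1) := by
        intro b hb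
        refine h.2 0 b ?_
        intro hc
        rw [Prod.mk.injEq] at hc
        exact (Finset.ne_of_mem_erase hb) hc.2
      rw [Finset.sum_congr rfl h5, Finset.sum_const, Finset.card_erase_of_mem (Finset.mem_univ _),
        Finset.card_univ, ZMod.card, nsmul_eq_mul,
        Nat.cast_sub (Nat.one_le_iff_ne_zero.2 (NeZero.ne d))]
      simp only [norm_one, one_pow, Nat.cast_one]
      field_simp
      ring
    · rw [if_neg ha]
      have h5 : ∀ b ∈ (Finset.univ : Finset (ZMod d)), ‖ov ψ a b‖ ^ 2 = 1 / ((d : ℝ) + 1) := by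
        intro b _
        refine h.2 a b ?_
        intro hc
        rw [Prod.mk.injEq] at hc
        exact ha hc.1
      rw [Finset.sum_congr rfl h5, Finset.sum_const, Finset.card_univ, ZMod.card, nsmul_eq_mul]
  rw [h4] at h1
  exact (mul_left_cancel₀ hd.ne' h1).symm

/-- every residue is a difference of the support -/
theorem overlap_supp {ψ : ZMod d → ℂ} (h : Fid ψ) (a : ZMod d) :
    ∃ j, ψ j ≠ 0 ∧ ψ (j + a) ≠ 0 := by
  by_contra hcon
  push Not at hcon
  have h1 := autocorr h a
  have h2 : ∑ j, ‖ψ j‖ ^ 2 * ‖ψ (j + a)‖ ^ 2 = 0 := by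
    refine Finset.sum_eq_zero fun j _ => ?_
    by_cases hj : ψ j = 0
    · rw [hj]; simp
    · rw [hcon j hj]; simp
  rw [h2] at h1
  have hd : (0 : ℝ) < (d : ℝ) + 1 := by positivity
  have : (0 : ℝ) < (if a = 0 then 2 else 1) / ((d : ℝ) + 1) := by
    split_ifs <;> positivity
  linarith

theorem quad {u : ZMod d → ℂ} {c : ZMod d} {l : ℂ}
    (hrec : ∀ j, u (j + 1) = l * e (c * j) * u j) (h j : ZMod d) :
    u (j + h) * u 0 = e (c * h * j) * u h * u j := by
  have key : ∀ n : ℕ, u ((n : ZMod d) + h) * u 0 = e (c * h * (n : ZMod d)) * u h * u (n : ZMod d) := by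
    intro n
    induction n with
    | zero => simp [e_zero]
    | succ n ih =>
      have e1 : ((n + 1 : ℕ) : ZMod d) + h = ((n : ZMod d) + h) + 1 := by push_cast; ring
      have e2 : ((n + 1 : ℕ) : ZMod d) = (n : ZMod d) + 1 := by push_cast; ring
      rw [e1, e2, hrec ((n : ZMod d) + h), hrec (n : ZMod d)]
      have e3 : e (c * ((n : ZMod d) + h)) = e (c * (n : ZMod d)) * e (c * h) := by
        rw [← e_add]; congr 1; ring
      have e4 : e (c * h * ((n : ZMod d) + 1)) = e (c * h * (n : ZMod d)) * e (c * h) := by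
        rw [← e_add]; congr 1; ring
      rw [e3, e4]
      calc l * (e (c * (n : ZMod d)) * e (c * h)) * u ((n : ZMod d) + h) * u 0
          = l * (e (c * (n : ZMod d)) * e (c * h)) * (u ((n : ZMod d) + h) * u 0) := by ring
        _ = _ := by rw [ih]; ring
  have := key j.val
  rwa [ZMod.natCast_zmod_val] at this

theorem main_std (hd3 : d ≠ 3) {ψ : ZMod d → ℂ} (h : Fid ψ) (u : ZMod d → ℂ) (c : ZMod d) (l : ℂ)
    (hu0 : ∀ j, u j ≠ 0) (hrec : ∀ j, u (j + 1) = l * e (c * j) * u j)
    (hfix : ∀ j, u j * ψ j = ψ j) : ∀ j, u j = 1 := by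
  classical
  have hdR : (0 : ℝ) < (d : ℝ) + 1 := by positivity
  have hS : ∀ j, ψ j ≠ 0 → u j = 1 := by
    intro j hj
    have := hfix j
    exact mul_right_cancel₀ hj (by rw [this, one_mul])
  set K : Finset (ZMod d) := univ.filter fun k => c * k = 0 with hKdef
  set L : Finset (ZMod d) := univ.filter fun j => u j = 1 with hLdef
  have hK : ∀ k ∈ K, ∀ j, u (j + k) = u j := by
    intro k hk j
    have hck : c * k = 0 := (Finset.mem_filter.1 hk).2
    obtain ⟨i, hi1, hi2⟩ := overlap_supp h k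
    have q1 := quad hrec k i
    rw [hS i hi1, hS _ hi2, hck, zero_mul, e_zero] at q1
    have q2 := quad hrec k j
    rw [hck, zero_mul, e_zero] at q2
    have q3 : u k = u 0 := by simpa using q1.symm
    rw [q3, one_mul, mul_comm (u 0)] at q2
    exact mul_right_cancel₀ (hu0 0) q2
  set g : ℕ := K.card with hg
  have hg1 : 1 ≤ g := Finset.card_pos.2 ⟨0, by simp [hKdef]⟩
  have hgd : g ≤ d := by
    have := Finset.card_le_univ K
    rwa [ZMod.card] at this
  -- masses of the cosets
  set p : ZMod d → ℝ := fun j => ‖ψ j‖ ^ 2 with hp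
  have hac : ∀ a, ∑ j, p j * p (j + a) = (if a = 0 then 2 else 1) / ((d : ℝ) + 1) :=
    fun a => autocorr h a
  set P : ZMod d → ℝ := fun j => ∑ k ∈ K, p (j + k) with hP
  have hPz : ∀ j, j ∉ L → P j = 0 := by
    intro j hj
    refine Finset.sum_eq_zero fun k hk => ?_
    have h1 : ψ (j + k) = 0 := by
      by_contra hne
      have h2 := hS _ hne
      rw [hK k hk j] at h2
      exact hj (by simp [hLdef, h2])
    simp [hp, h1]
  have hPs : ∑ j ∈ L, P j = g := by
    have h1 : ∑ j ∈ L, P j = ∑ j, P j := by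
      refine Finset.sum_subset (Finset.subset_univ _) fun j _ hj => hPz j hj
    rw [h1]
    show ∑ j, ∑ k ∈ K, p (j + k) = g
    rw [Finset.sum_comm]
    have h2 : ∀ k ∈ K, ∑ j, p (j + k) = 1 := by
      intro k _
      rw [← h.1]
      exact Fintype.sum_equiv (Equiv.addRight k) _ _ fun j => rfl
    rw [Finset.sum_congr rfl h2, Finset.sum_const, nsmul_eq_mul, mul_one]
  have hP2 : ∑ j, P j ^ 2 = ((g : ℝ) ^ 2 + g) / ((d : ℝ) + 1) := by
    have h1 : ∀ j, P j ^ 2 = ∑ k ∈ K, ∑ k' ∈ K, p (j + k) * p (j + k') := by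
      intro j; rw [sq]; exact Finset.sum_mul_sum _ _ _ _
    rw [Finset.sum_congr rfl fun j _ => h1 j, Finset.sum_comm]
    have h2 : ∀ k ∈ K, ∑ j, ∑ k' ∈ K, p (j + k) * p (j + k') = ((g : ℝ) + 1) / ((d : ℝ) + 1) := by
      intro k hk
      rw [Finset.sum_comm]
      have h3 : ∀ k' ∈ K, ∑ j, p (j + k) * p (j + k')
          = (if k' = k then 2 else 1) / ((d : ℝ) + 1) := by
        intro k' _
        have h4 : ∑ j, p (j + k) * p (j + k') = ∑ i, p i * p (i + (k' - k)) := by
          refine Fintype.sum_equiv (Equiv.addRight k) _ _ fun j => ?_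
          simp only [Equiv.coe_addRight]
          congr 2; ring
        rw [h4, hac]
        simp only [sub_eq_zero]
      rw [Finset.sum_congr rfl h3, ← Finset.sum_div]
      congr 1
      have h5 : ∀ k' ∈ K, (if k' = k then (2 : ℝ) else 1) = 1 + if k' = k then 1 else 0 := by
        intro k' _; split_ifs <;> norm_num
      rw [Finset.sum_congr rfl h5, Finset.sum_add_distrib, Finset.sum_const, Finset.sum_ite_eq' K k,
        if_pos hk, nsmul_eq_mul, mul_one]
    rw [Finset.sum_congr rfl h2, Finset.sum_const, nsmul_eq_mul]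
    ring
  have hlow : (g : ℝ) * ((d : ℝ) + 1) ≤ L.card * ((g : ℝ) + 1) := by
    have h1 : (∑ j ∈ L, P j) ^ 2 ≤ L.card * ∑ j ∈ L, P j ^ 2 := sq_sum_le_card_mul_sum_sq
    have h2 : ∑ j ∈ L, P j ^ 2 ≤ ∑ j, P j ^ 2 :=
      Finset.sum_le_sum_of_subset_of_nonneg (Finset.subset_univ _) fun _ _ _ => sq_nonneg _
    have hgR : (0 : ℝ) < g := by exact_mod_cast hg1
    have h3 : (g : ℝ) ^ 2 ≤ L.card * (((g : ℝ) ^ 2 + g) / ((d : ℝ) + 1)) := by
      rw [← hP2]
      rw [hPs] at h1
      exact h1.trans (mul_le_mul_of_nonneg_left h2 (Nat.cast_nonneg _))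
    rw [mul_div_assoc', le_div_iff₀ hdR] at h3
    nlinarith
  -- upper bound
  have hT : ∀ i j, u i = 1 → u (i + 1) = 1 → u j = 1 → u (j + 1) = 1 → j - i ∈ K := by
    intro i j h1 h2 h3 h4
    have q1 := quad hrec 1 i
    have q2 := quad hrec 1 j
    rw [h1, h2] at q1
    rw [h3, h4] at q2
    rw [one_mul, mul_one, mul_one] at q1 q2
    have q3 : e (c * i) = e (c * j) := by
      rw [q2] at q1
      exact (mul_right_cancel₀ (hu0 1) q1).symm
    have q4 := e_inj q3
    simp only [hKdef, Finset.mem_filter, Finset.mem_univ, true_and]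
    rw [mul_sub, q4, sub_self]
  set L1 : Finset (ZMod d) := univ.filter fun j => u (j + 1) = 1 with hL1
  have hL1c : L1.card = L.card := by
    refine Finset.card_bij (fun j _ => j + 1) ?_ ?_ ?_
    · intro j hj
      simpa [hL1, hLdef] using hj
    · intro i _ j _ hij
      exact add_right_cancel hij
    · intro j hj
      refine ⟨j - 1, ?_, by ring⟩
      simpa [hL1, hLdef] using hj
  have hint : (L ∩ L1).card ≤ g := by
    rcases (L ∩ L1).eq_empty_or_nonempty with hem | ⟨i, hi⟩
    · rw [hem]; simp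
    · refine Finset.card_le_card_of_injOn (fun j => j - i) ?_ ?_
      · intro j hj
        have hj' : j ∈ L ∩ L1 := hj
        simp only [Finset.mem_inter, hLdef, hL1, Finset.mem_filter, Finset.mem_univ, true_and] at hi hj'
        exact hT i j hi.1 hi.2 hj'.1 hj'.2
      · intro a _ b _ hab
        exact sub_left_injective hab
  have hup : 2 * L.card ≤ d + g := by
    have h1 := Finset.card_union_add_card_inter L L1
    have h2 : (L ∪ L1).card ≤ d := by
      have := Finset.card_le_univ (L ∪ L1)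
      rwa [ZMod.card] at this
    omega
  have hprod : ((g : ℝ) - 1) * ((d : ℝ) - g) ≤ 0 := by
    have h1 : (2 : ℝ) * L.card ≤ d + g := by exact_mod_cast hup
    have h2 : (0 : ℝ) < (g : ℝ) + 1 := by positivity
    nlinarith
  have hcase : g = 1 ∨ g = d := by
    by_contra hcon
    push Not at hcon
    have h1 : (1 : ℝ) < g := by
      have : 1 < g := by omega
      exact_mod_cast this
    have h2 : (g : ℝ) < d := by
      have : g < d := by omega
      exact_mod_cast this
    nlinarith [mul_pos (sub_pos.2 h1) (sub_pos.2 h2)]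
  have hcase' : (g = 1 ∧ 2 ≤ d) ∨ g = d := by omega
  rcases hcase' with ⟨hg', hd2⟩ | hg'
  · -- `K = 0`
    exfalso
    obtain ⟨k0, hk0⟩ := Finset.card_eq_one.1 (hg ▸ hg')
    have hzero : (0 : ZMod d) ∈ K := by simp [hKdef]
    have hk00 : k0 = 0 := by
      rw [hk0, Finset.mem_singleton] at hzero; exact hzero.symm
    obtain ⟨i, hi1, hi2⟩ := overlap_supp h 1
    have huniq : ∀ j, ψ j ≠ 0 → ψ (j + 1) ≠ 0 → j = i := by
      intro j h1 h2
      have := hT i j (hS i hi1) (hS _ hi2) (hS j h1) (hS _ h2)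
      rw [hk0, hk00, Finset.mem_singleton, sub_eq_zero] at this
      exact this
    have h10 : (1 : ZMod d) ≠ 0 := by
      intro h1
      have h2 : ((1 : ℕ) : ZMod d) = 0 := by exact_mod_cast h1
      rw [ZMod.natCast_eq_zero_iff] at h2
      have := Nat.le_of_dvd one_pos h2
      omega
    have a1 := hac 1
    rw [if_neg h10, Finset.sum_eq_single i] at a1
    · have a0 := hac 0
      rw [if_pos rfl] at a0
      simp only [add_zero] at a0
      have hne : i ≠ i + 1 := by
        intro hh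
        exact h10 (by simpa using hh.symm)
      have hsp : ∀ f : ZMod d → ℝ, ∑ j, f j = f i + f (i + 1) + ∑ j ∈ univ \ {i, i + 1}, f j := by
        intro f
        rw [← Finset.sum_sdiff (Finset.subset_univ ({i, i + 1} : Finset (ZMod d))),
          Finset.sum_pair hne]
        ring
      rw [hsp] at a0
      have h1 : 0 ≤ ∑ j ∈ univ \ {i, i + 1}, p j * p j :=
        Finset.sum_nonneg fun j _ => mul_self_nonneg _
      have h2 : ∑ j ∈ univ \ {i, i + 1}, p j * p j = 0 ∧ p i = p (i + 1) := by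
        have h3 : 2 / ((d : ℝ) + 1) = 2 * (1 / ((d : ℝ) + 1)) := by ring
        rw [h3, ← a1] at a0
        have h4 : ∑ j ∈ univ \ {i, i + 1}, p j * p j + (p i - p (i + 1)) ^ 2 = 0 := by
          nlinarith
        have h5 := sq_nonneg (p i - p (i + 1))
        have h6 : (p i - p (i + 1)) ^ 2 = 0 := by linarith
        exact ⟨by linarith, sub_eq_zero.1 (pow_eq_zero_iff (two_ne_zero) |>.1 h6)⟩
      have h3 : ∀ j ∈ univ \ {i, i + 1}, p j = 0 := by
        intro j hj
        have := (Finset.sum_eq_zero_iff_of_nonneg fun j _ => mul_self_nonneg (p j)).1 h2.1 j hj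
        exact mul_self_eq_zero.1 this
      have h4 := h.1
      have h5 : ∑ j, ‖ψ j‖ ^ 2 = ∑ j, p j := rfl
      rw [h5, hsp, Finset.sum_eq_zero h3, h2.2] at h4
      have h6 : p (i + 1) = 1 / 2 := by linarith
      rw [h2.2, h6] at a1
      rw [eq_div_iff hdR.ne'] at a1
      have h7 : (d : ℝ) = 3 := by linarith
      exact hd3 (by exact_mod_cast h7)
    · intro j _ hj
      by_cases h1 : ψ j = 0
      · simp [hp, h1]
      · by_cases h2 : ψ (j + 1) = 0
        · simp [hp, h2]
        · exact absurd (huniq j h1 h2) hj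
    · intro h1; exact absurd (Finset.mem_univ _) h1
  · -- `K` is everything
    have hKu : K = univ := by
      refine Finset.eq_univ_of_card K ?_
      rw [ZMod.card]; exact hg'
    obtain ⟨i, hi1, -⟩ := overlap_supp h 0
    intro j
    have h1 := hK (j - i) (by rw [hKu]; exact Finset.mem_univ _) i
    rw [show i + (j - i) = j by ring, hS i hi1] at h1
    exact h1

end Pool.Agent.H371.SICF
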