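import Mathlib
import Pool.Agent.R503.SIC.Cliff
import Pool.Agent.H371.SICF.Std

set_option autoImplicit false

/-! # Clifford symmetries commuting with a displacement operator of full order -/

namespace Pool.Agent.H371.SICF

open Finset Complex
open scoped ComplexConjugate
open Pool.Agent.R503.SIC

variable {d : ℕ} [NeZero d]

theorem Dm_unitary (a b : ZMod d) : star (Dm a b) * Dm a b = 1 := by
  ext i j
  rw [Matrix.mul_apply, Finset.sum_eq_single (j + a)]
  · simp only [Matrix.star_apply, Dm, Matrix.of_apply, if_true, Matrix.one_apply]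
    by_cases hij : i = j
    · subst hij
      simp only [if_true]
      have : star (e (b * i)) * e (b * i) = 1 := by
        have h1 := conj_mul_self' (e (b * i))
        rw [norm_e] at h1
        simpa using h1
      exact this
    · rw [if_neg (fun h => hij (add_right_cancel h).symm), if_neg hij, star_zero, zero_mul]
  · intro k _ hk
    simp only [Dm, Matrix.of_apply]
    rw [if_neg hk, mul_zero]
  · intro h; exact absurd (Finset.mem_univ _) h

theorem Dm_pow (a b : ZMod d) (n : ℕ) : ∃ c : ℂ, ‖c‖ = 1 ∧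
    Dm a b ^ n = c • Dm ((n : ZMod d) * a) ((n : ZMod d) * b) := by
  induction n with
  | zero => exact ⟨1, norm_one, by simp [Dm_zero]⟩
  | succ n ih =>
    obtain ⟨c, hc, h⟩ := ih
    refine ⟨c * e ((n : ZMod d) * b * a), by rw [norm_mul, hc, norm_e, one_mul], ?_⟩
    rw [pow_succ, h, Matrix.smul_mul, Dm_mul, smul_smul]
    congr 2 <;> (push_cast; ring)

theorem exists_norm (a b : ZMod d) : ∃ α : ℂ, ‖α‖ = 1 ∧ (α • Dm a b) ^ d = 1 := by
  obtain ⟨c, hc, h⟩ := Dm_pow a b d
  have hc0 : c ≠ 0 := by rintro rfl; simp at hc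
  have hd : 0 < d := Nat.pos_of_ne_zero (NeZero.ne d)
  obtain ⟨α, hα⟩ := IsAlgClosed.exists_pow_nat_eq c⁻¹ hd
  refine ⟨α, ?_, ?_⟩
  · have : ‖α‖ ^ d = 1 := by rw [← norm_pow, hα, norm_inv, hc, inv_one]
    exact (pow_eq_one_iff_of_nonneg (norm_nonneg _) hd.ne').1 this
  · rw [smul_pow, hα, h, ZMod.natCast_self, zero_mul, zero_mul, Dm_zero, smul_smul,
      inv_mul_cancel₀ hc0, one_smul]

theorem trace_Dm {a b : ZMod d} (h : ¬ (a = 0 ∧ b = 0)) : Matrix.trace (Dm a b) = 0 := by
  rw [Matrix.trace]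
  simp only [Matrix.diag_apply, Dm, Matrix.of_apply]
  by_cases ha : a = 0
  · have hb : b ≠ 0 := fun hb => h ⟨ha, hb⟩
    subst ha
    simp only [add_zero, if_true]
    have h1 := sum_e b
    rw [if_neg hb] at h1
    rw [← h1]
    exact Finset.sum_congr rfl fun i _ => by rw [mul_comm]
  · refine Finset.sum_eq_zero fun i _ => ?_
    rw [if_neg]
    intro hh
    exact ha (by simpa using hh.symm)

theorem fixed_vec {x z : ZMod d} (hord : ∀ k : ZMod d, k * x = 0 → k * z = 0 → k = 0)
    {α : ℂ} (hα : (α • Dm x z) ^ d = 1) :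
    ∃ v : ZMod d → ℂ, ∑ i, ‖v i‖ ^ 2 = 1 ∧ (α • Dm x z).mulVec v = v := by
  set A : Matrix (ZMod d) (ZMod d) ℂ := α • Dm x z with hA
  have hd : 0 < d := Nat.pos_of_ne_zero (NeZero.ne d)
  set Q : Matrix (ZMod d) (ZMod d) ℂ := ∑ k ∈ range d, A ^ k with hQ
  have hAQ : A * Q = Q := by
    have h1 : A * Q = ∑ k ∈ range d, A ^ (k + 1) := by
      rw [hQ, Finset.mul_sum]
      exact Finset.sum_congr rfl fun k _ => (pow_succ' A k).symm
    have h2 := Finset.sum_range_succ (fun k => A ^ k) d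
    have h3 := Finset.sum_range_succ' (fun k => A ^ k) d
    rw [h2, hα, pow_zero] at h3
    rw [h1]
    exact (add_right_cancel h3).symm
  have htr : Matrix.trace Q = d := by
    rw [hQ, Matrix.trace_sum, Finset.sum_eq_single 0]
    · rw [pow_zero, Matrix.trace_one, ZMod.card]
    · intro k hk hk0
      obtain ⟨c, -, hc⟩ := Dm_pow x z k
      rw [hA, smul_pow, hc, Matrix.trace_smul, Matrix.trace_smul, trace_Dm, smul_zero, smul_zero]
      rintro ⟨h1, h2⟩
      have h3 := hord (k : ZMod d) h1 h2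
      rw [ZMod.natCast_eq_zero_iff] at h3
      have h4 := Nat.le_of_dvd (Nat.pos_of_ne_zero hk0) h3
      have h5 := Finset.mem_range.1 hk
      omega
    · intro h; exact absurd (Finset.mem_range.2 hd) h
  have hQ0 : Q ≠ 0 := by
    intro h
    rw [h, Matrix.trace_zero] at htr
    have : (d : ℂ) ≠ 0 := by exact_mod_cast hd.ne'
    exact this htr.symm
  obtain ⟨j, hj⟩ : ∃ j, ∃ i, Q i j ≠ 0 := by
    by_contra hcon
    push Not at hcon
    exact hQ0 (by ext i j; exact hcon j i)
  set v : ZMod d → ℂ := fun i => Q i j with hv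
  have hAv : A.mulVec v = v := by
    ext i
    have := congrFun (congrFun hAQ i) j
    rw [Matrix.mul_apply] at this
    exact this
  have hpos : 0 < ∑ i, ‖v i‖ ^ 2 := by
    obtain ⟨i, hi⟩ := hj
    refine Finset.sum_pos' (fun _ _ => sq_nonneg _) ⟨i, Finset.mem_univ _, ?_⟩
    have : 0 < ‖v i‖ := norm_pos_iff.2 hi
    positivity
  refine ⟨(((Real.sqrt (∑ i, ‖v i‖ ^ 2))⁻¹ : ℝ) : ℂ) • v, ?_, ?_⟩
  · have h1 : ∀ i, ‖((((Real.sqrt (∑ i, ‖v i‖ ^ 2))⁻¹ : ℝ) : ℂ) • v) i‖ ^ 2
        = (∑ i, ‖v i‖ ^ 2)⁻¹ * ‖v i‖ ^ 2 := by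
      intro i
      rw [Pi.smul_apply, smul_eq_mul, norm_mul, Complex.norm_real, mul_pow, norm_inv, inv_pow,
        Real.norm_eq_abs, sq_abs, Real.sq_sqrt hpos.le]
    rw [Finset.sum_congr rfl fun i _ => h1 i, ← Finset.mul_sum]
    exact inv_mul_cancel₀ hpos.ne'
  · rw [Matrix.mulVec_smul, hAv]

theorem comm_scalar {G : Matrix (ZMod d) (ZMod d) ℂ} (hX : G * Dm 1 0 = Dm 1 0 * G)
    (hZ : G * Dm 0 1 = Dm 0 1 * G) : G = G 0 0 • (1 : Matrix (ZMod d) (ZMod d) ℂ) := by
  have mulR : ∀ (M : Matrix (ZMod d) (ZMod d) ℂ) (a b i j : ZMod d),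
      (M * Dm a b) i j = M i (j + a) * e (b * j) := by
    intro M a b i j
    rw [Matrix.mul_apply, Finset.sum_eq_single (j + a)]
    · simp [Dm]
    · intro k _ hk; simp only [Dm, Matrix.of_apply]; rw [if_neg hk, mul_zero]
    · intro h; exact absurd (Finset.mem_univ _) h
  have mulL : ∀ (M : Matrix (ZMod d) (ZMod d) ℂ) (a b i j : ZMod d),
      (Dm a b * M) i j = e (b * (i - a)) * M (i - a) j := by
    intro M a b i j
    rw [Matrix.mul_apply, Finset.sum_eq_single (i - a)]
    · simp [Dm]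
    · intro k _ hk; simp only [Dm, Matrix.of_apply]
      rw [if_neg (fun h => hk (by rw [h]; ring)), zero_mul]
    · intro h; exact absurd (Finset.mem_univ _) h
  have hoff : ∀ i j, i ≠ j → G i j = 0 := by
    intro i j hij
    have h1 := congrFun (congrFun hZ i) j
    rw [mulR, mulL, add_zero, sub_zero, one_mul, one_mul] at h1
    by_contra hne
    have h2 : e j = e i := by
      refine mul_left_cancel₀ hne ?_
      rw [h1, mul_comm]
    exact hij (e_inj h2).symm
  have hdiag : ∀ j, G (j + 1) (j + 1) = G j j := by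
    intro j
    have h1 := congrFun (congrFun hX (j + 1)) j
    rw [mulR, mulL, zero_mul, zero_mul, e_zero, mul_one, one_mul] at h1
    rw [h1]; congr 1; ring
  have hdiag' : ∀ n : ℕ, G (n : ZMod d) (n : ZMod d) = G 0 0 := by
    intro n
    induction n with
    | zero => simp
    | succ n ih => push_cast; rw [hdiag, ih]
  ext i j
  rw [Matrix.smul_apply, Matrix.one_apply, smul_eq_mul]
  by_cases hij : i = j
  · subst hij
    rw [if_pos rfl, mul_one]
    have := hdiag' i.val
    rwa [ZMod.natCast_zmod_val] at this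
  · rw [if_neg hij, mul_zero, hoff i j hij]

theorem bezout {x z : ZMod d} (hord : ∀ k : ZMod d, k * x = 0 → k * z = 0 → k = 0) :
    ∃ s t : ZMod d, z * s - t * x = 1 := by
  have hP : IsPrincipalIdealRing (ZMod d) :=
    IsPrincipalIdealRing.of_surjective (Int.castRingHom (ZMod d)) (ZMod.ringHom_surjective _)
  obtain ⟨g, hg⟩ := (hP.principal (Ideal.span {x, z})).principal
  have hx : x ∈ Ideal.span {g} := by
    have : x ∈ Ideal.span {x, z} := Ideal.subset_span (by simp)
    rw [hg] at this; exact this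
  have hz : z ∈ Ideal.span {g} := by
    have : z ∈ Ideal.span {x, z} := Ideal.subset_span (by simp)
    rw [hg] at this; exact this
  have hgm : g ∈ Ideal.span {x, z} := by
    rw [hg]; exact Submodule.mem_span_singleton_self g
  obtain ⟨a, ha⟩ := Ideal.mem_span_singleton'.1 hx
  obtain ⟨b, hb⟩ := Ideal.mem_span_singleton'.1 hz
  obtain ⟨p, q, hpq⟩ := Ideal.mem_span_pair.1 hgm
  have hu : IsUnit g := by
    rw [isUnit_iff_mem_nonZeroDivisors_of_finite, mem_nonZeroDivisors_iff_right]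
    intro k hk
    refine hord k ?_ ?_
    · rw [← ha]
      calc k * (a * g) = a * (k * g) := by ring
        _ = 0 := by rw [hk, mul_zero]
    · rw [← hb]
      calc k * (b * g) = b * (k * g) := by ring
        _ = 0 := by rw [hk, mul_zero]
  obtain ⟨w, hw⟩ := hu
  refine ⟨(↑w⁻¹ : ZMod d) * q, -((↑w⁻¹ : ZMod d) * p), ?_⟩
  have h1 : (↑w⁻¹ : ZMod d) * g = 1 := by rw [← hw]; exact w.inv_mul
  calc z * ((↑w⁻¹ : ZMod d) * q) - -((↑w⁻¹ : ZMod d) * p) * x
      = (↑w⁻¹ : ZMod d) * (p * x + q * z) := by ring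
    _ = 1 := by rw [hpq, h1]

end Pool.Agent.H371.SICF
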