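import Mathlib
import Pool.Agent.H371.SICF.Basis

set_option autoImplicit false

/-! # Clifford symmetries commuting with a displacement operator of full order: main part -/

namespace Pool.Agent.H371.SICF

open Finset Complex
open scoped ComplexConjugate
open Pool.Agent.R503.SIC

variable {d : ℕ} [NeZero d]

theorem mulR (M : Matrix (ZMod d) (ZMod d) ℂ) (a b i j : ZMod d) :
    (M * Dm a b) i j = M i (j + a) * e (b * j) := by
  rw [Matrix.mul_apply, Finset.sum_eq_single (j + a)]
  · simp [Dm]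
  · intro k _ hk; simp only [Dm, Matrix.of_apply]; rw [if_neg hk, mul_zero]
  · intro h; exact absurd (Finset.mem_univ _) h

theorem mulL (M : Matrix (ZMod d) (ZMod d) ℂ) (a b i j : ZMod d) :
    (Dm a b * M) i j = e (b * (i - a)) * M (i - a) j := by
  rw [Matrix.mul_apply, Finset.sum_eq_single (i - a)]
  · simp [Dm]
  · intro k _ hk; simp only [Dm, Matrix.of_apply]
    rw [if_neg (fun h => hk (by rw [h]; ring)), zero_mul]
  · intro h; exact absurd (Finset.mem_univ _) h

theorem star_inv {A W : Matrix (ZMod d) (ZMod d) ℂ} {X : Matrix (ZMod d) (ZMod d) ℂ}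
    (hA : star A * A = 1) (hX : X * star X = 1) (h : A * W = W * X) :
    star W * W * X = X * (star W * W) := by
  have h1 : star W * star A = star X * star W := by
    rw [← star_mul, ← star_mul, h]
  have h2 : star W * W = star X * (star W * W * X) := by
    calc star W * W = star W * (star A * A) * W := by rw [hA, mul_one]
      _ = (star W * star A) * (A * W) := by simp only [mul_assoc]
      _ = star X * (star W * W * X) := by rw [h1, h]; simp only [mul_assoc]
  calc star W * W * X = X * star X * (star W * W * X) := by rw [hX, one_mul]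
    _ = X * (star X * (star W * W * X)) := by rw [mul_assoc]
    _ = X * (star W * W) := by rw [← h2]

theorem exists_basis {x z : ZMod d} (hord : ∀ k : ZMod d, k * x = 0 → k * z = 0 → k = 0) :
    ∃ (s t : ZMod d) (W : Matrix (ZMod d) (ZMod d) ℂ), z * s - t * x = 1 ∧ star W * W = 1 ∧
      ∀ a b : ZMod d, ∃ κ : ℂ, ‖κ‖ = 1 ∧
        W * Dm a b = κ • (Dm (a * s + b * x) (a * t + b * z) * W) := by
  obtain ⟨s, t, hst⟩ := bezout hord
  obtain ⟨α, hα1, hα⟩ := exists_norm x z
  obtain ⟨β, hβ1, hβ⟩ := exists_norm s t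
  obtain ⟨v, hv1, hv⟩ := fixed_vec hord hα
  set A : Matrix (ZMod d) (ZMod d) ℂ := α • Dm x z with hA
  set B : Matrix (ZMod d) (ZMod d) ℂ := β • Dm s t with hB
  have uni : ∀ (γ : ℂ) (a b : ZMod d), ‖γ‖ = 1 → star (γ • Dm a b) * (γ • Dm a b) = 1 := by
    intro γ a b hγ
    rw [star_smul, Matrix.smul_mul, Matrix.mul_smul, Dm_unitary, smul_smul]
    have h1 : star γ * γ = 1 := by
      have h1 := conj_mul_self' γ
      rw [hγ] at h1
      simpa using h1
    rw [h1, one_smul]
  have hAu : star A * A = 1 := uni α x z hα1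
  have hBu : star B * B = 1 := uni β s t hβ1
  have hXu : ∀ a b : ZMod d, Dm a b * star (Dm a b) = 1 := by
    intro a b
    exact mul_eq_one_comm.1 (Dm_unitary a b)
  have hAB : A * B = e (1 : ZMod d) • (B * A) := by
    rw [hA, hB, Matrix.smul_mul, Matrix.mul_smul, Matrix.smul_mul, Matrix.mul_smul, Dm_comm, hst]
    simp only [smul_smul]
    congr 1; ring
  have hABn : ∀ n : ℕ, A * B ^ n = e (n : ZMod d) • (B ^ n * A) := by
    intro n
    induction n with
    | zero => simp [e_zero]
    | succ n ih =>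
      rw [pow_succ, ← mul_assoc, ih, Matrix.smul_mul, mul_assoc, hAB, Matrix.mul_smul, smul_smul,
        ← e_add, ← mul_assoc]
      push_cast
      rfl
  set W : Matrix (ZMod d) (ZMod d) ℂ := Matrix.of fun i j => ((B ^ j.val).mulVec v) i with hW
  have hBW : B * W = W * Dm 1 0 := by
    ext i j
    rw [mulR, zero_mul, e_zero, mul_one]
    have h1 : (B * W) i j = (B.mulVec ((B ^ j.val).mulVec v)) i := rfl
    rw [h1, Matrix.mulVec_mulVec, ← pow_succ']
    show _ = ((B ^ (j + 1).val).mulVec v) i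
    have h2 : (j + 1).val = (j.val + 1) % d := by
      have h3 : j + 1 = ((j.val + 1 : ℕ) : ZMod d) := by
        push_cast; rw [ZMod.natCast_zmod_val]
      rw [h3, ZMod.val_natCast]
    rw [h2, ← pow_eq_pow_mod _ hβ]
  have hAW : A * W = W * Dm 0 1 := by
    ext i j
    rw [mulR, one_mul, add_zero]
    have h1 : (A * W) i j = (A.mulVec ((B ^ j.val).mulVec v)) i := rfl
    rw [h1, Matrix.mulVec_mulVec, hABn, ZMod.natCast_zmod_val, Matrix.smul_mulVec,
      ← Matrix.mulVec_mulVec, hv, Pi.smul_apply, smul_eq_mul, mul_comm]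
    rfl
  have hG := comm_scalar (star_inv hBu (hXu 1 0) hBW) (star_inv hAu (hXu 0 1) hAW)
  have hG0 : (star W * W) 0 0 = 1 := by
    rw [Matrix.mul_apply]
    have h1 : ∀ i, star W 0 i * W i 0 = ((‖v i‖ ^ 2 : ℝ) : ℂ) := by
      intro i
      have h2 : W i 0 = v i := by
        show ((B ^ (0 : ZMod d).val).mulVec v) i = v i
        rw [ZMod.val_zero, pow_zero, Matrix.one_mulVec]
      rw [Matrix.star_apply, h2]
      exact conj_mul_self' _
    rw [Finset.sum_congr rfl fun i _ => h1 i, ← Complex.ofReal_sum, hv1, Complex.ofReal_one]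
  rw [hG0, one_smul] at hG
  refine ⟨s, t, W, hst, hG, fun a b => ?_⟩
  have hBn : ∀ n : ℕ, W * Dm 1 0 ^ n = B ^ n * W := by
    intro n
    induction n with
    | zero => simp
    | succ n ih => rw [pow_succ, ← mul_assoc, ih, mul_assoc, ← hBW, ← mul_assoc, ← pow_succ]
  have hAn : ∀ n : ℕ, W * Dm 0 1 ^ n = A ^ n * W := by
    intro n
    induction n with
    | zero => simp
    | succ n ih => rw [pow_succ, ← mul_assoc, ih, mul_assoc, ← hAW, ← mul_assoc, ← pow_succ]
  have key : W * (Dm 1 0 ^ a.val * Dm 0 1 ^ b.val) = B ^ a.val * A ^ b.val * W := by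
    rw [← mul_assoc, hBn, mul_assoc, hAn, ← mul_assoc]
  obtain ⟨c1, n1, h1⟩ := Dm_pow (1 : ZMod d) 0 a.val
  obtain ⟨c2, n2, h2⟩ := Dm_pow (0 : ZMod d) 1 b.val
  obtain ⟨c3, n3, h3⟩ := Dm_pow s t a.val
  obtain ⟨c4, n4, h4⟩ := Dm_pow x z b.val
  rw [h1, h2, hA, hB, smul_pow, smul_pow, h3, h4] at key
  simp only [ZMod.natCast_zmod_val, mul_one, mul_zero, Matrix.smul_mul, Matrix.mul_smul, smul_smul,
    Dm_mul, add_zero, zero_add, zero_mul, e_zero] at key
  have hc1 : c1 ≠ 0 := by rintro rfl; simp at n1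
  have hc2 : c2 ≠ 0 := by rintro rfl; simp at n2
  refine ⟨(c2 * c1)⁻¹ * (α ^ b.val * c4 * (β ^ a.val * c3 * e (a * t * (b * x)))), ?_, ?_⟩
  · simp only [norm_mul, norm_inv, norm_pow, n1, n2, n3, n4, hα1, hβ1, norm_e, one_pow, mul_one,
      inv_one]
  · rw [mul_smul, ← key, smul_smul, inv_mul_cancel₀ (mul_ne_zero hc2 hc1), one_smul]

theorem std_matrix (hd3 : d ≠ 3) {ψ : ZMod d → ℂ} (h : Fid ψ) {U : Matrix (ZMod d) (ZMod d) ℂ}
    (hU : star U * U = 1) {κ c l : ℂ} {a b : ZMod d}
    (hZ : U * Dm 0 1 = κ • (Dm 0 1 * U)) (hX : U * Dm 1 0 = c • (Dm a b * U))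
    (hl : U.mulVec ψ = l • ψ) : U = l • 1 := by
  have hunit : IsUnit U := ⟨⟨U, star U, mul_eq_one_comm.1 hU, hU⟩, rfl⟩
  have ha : a = 1 := by
    have h1 := sympl hunit hX hZ
    have h2 : (0 : ZMod d) * 0 - 1 * 1 = b * 0 - 1 * a := h1
    have h3 : a = b * 0 - (b * 0 - 1 * a) := by ring
    rw [h3, ← h2]; ring
  have hne : ∃ i j, U i j ≠ 0 := by
    by_contra hcon
    push Not at hcon
    have : U = 0 := by ext i j; exact hcon i j
    rw [this, mul_zero] at hU
    exact zero_ne_one hU
  obtain ⟨i0, j0, h0⟩ := hne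
  have hZe : ∀ i j, U i j * e j = κ * (e i * U i j) := by
    intro i j
    have h1 := congrFun (congrFun hZ i) j
    rw [Matrix.smul_apply, smul_eq_mul, mulR, mulL, add_zero, sub_zero, one_mul, one_mul] at h1
    exact h1
  have hκ : κ * e i0 = e j0 := by
    have h1 := hZe i0 j0
    refine mul_right_cancel₀ h0 ?_
    rw [mul_assoc, ← h1, mul_comm]
  obtain ⟨σ, hσ⟩ : ∃ σ, i0 = j0 + σ := ⟨i0 - j0, by ring⟩
  have hsupp : ∀ i j, i ≠ j + σ → U i j = 0 := by
    intro i j hij
    by_contra hne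
    have h1 := hZe i j
    have h2 : e j = κ * e i := by
      refine mul_left_cancel₀ hne ?_
      rw [h1]; ring
    have h3 : e (j + i0) = e (j0 + i) := by
      rw [e_add, e_add, h2, ← hκ]; ring
    have h4 := e_inj h3
    apply hij
    have h5 : i = j + i0 - j0 := by rw [h4]; ring
    rw [h5, hσ]; ring
  set u : ZMod d → ℂ := fun j => U (j + σ) j with hu
  have hnorm : ∀ j, ‖u j‖ = 1 := by
    intro j
    have h1 := congrFun (congrFun hU j) j
    rw [Matrix.mul_apply, Matrix.one_apply_eq, Finset.sum_eq_single (j + σ)] at h1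
    · rw [Matrix.star_apply] at h1
      have h2 : conj (u j) * u j = 1 := h1
      rw [conj_mul_self'] at h2
      have h3 : ‖u j‖ ^ 2 = 1 := by exact_mod_cast h2
      exact (pow_eq_one_iff_of_nonneg (norm_nonneg _) two_ne_zero).1 h3
    · intro i _ hi
      rw [hsupp i j hi, mul_zero]
    · intro h; exact absurd (Finset.mem_univ _) h
  have hrec : ∀ j, u (j + 1) = (c * e (b * σ)) * e (b * j) * u j := by
    intro j
    have h1 := congrFun (congrFun hX (j + 1 + σ)) j
    rw [Matrix.smul_apply, smul_eq_mul, mulR, mulL, zero_mul, e_zero, mul_one, ha] at h1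
    have h2 : j + 1 + σ - 1 = j + σ := by ring
    rw [h2] at h1
    have h3 : e (b * (j + σ)) = e (b * σ) * e (b * j) := by rw [← e_add]; congr 1; ring
    rw [h3] at h1
    show U (j + 1 + σ) (j + 1) = _
    rw [h1]; ring
  have hfix : ∀ j, u j * ψ j = l * ψ (j + σ) := by
    intro j
    have h1 := congrFun hl (j + σ)
    rw [Matrix.mulVec, dotProduct, Finset.sum_eq_single j] at h1
    · rw [h1]; rfl
    · intro k _ hk
      rw [hsupp _ _ (fun hh => hk (add_right_cancel hh).symm), zero_mul]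
    · intro h; exact absurd (Finset.mem_univ _) h
  have hsh : ∀ (f : ZMod d → ℝ), ∑ j, f (j + σ) = ∑ j, f j := fun f =>
    Fintype.sum_equiv (Equiv.addRight σ) _ _ fun j => rfl
  have hl1 : ‖l‖ = 1 := by
    have h1 : ∑ j, ‖u j * ψ j‖ ^ 2 = 1 := by
      rw [← h.1]
      refine Finset.sum_congr rfl fun j _ => ?_
      rw [norm_mul, hnorm, one_mul]
    have h2 : ∑ j, ‖u j * ψ j‖ ^ 2 = ‖l‖ ^ 2 := by
      have h3 : ∀ j, ‖u j * ψ j‖ ^ 2 = ‖l‖ ^ 2 * ‖ψ (j + σ)‖ ^ 2 := by
        intro j; rw [hfix, norm_mul, mul_pow]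
      rw [Finset.sum_congr rfl fun j _ => h3 j, ← Finset.mul_sum, hsh fun j => ‖ψ j‖ ^ 2, h.1,
        mul_one]
    rw [h1] at h2
    exact (pow_eq_one_iff_of_nonneg (norm_nonneg _) two_ne_zero).1 h2.symm
  have hl0 : l ≠ 0 := by rintro rfl; simp at hl1
  have hψn : ∀ j, ‖ψ (j + σ)‖ = ‖ψ j‖ := by
    intro j
    have h1 := congrArg norm (hfix j)
    rw [norm_mul, norm_mul, hnorm, hl1, one_mul, one_mul] at h1
    exact h1.symm
  have hσ0 : σ = 0 := by
    by_contra hne
    have h1 := autocorr h σ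
    have h2 := autocorr h 0
    rw [if_neg hne] at h1
    rw [if_pos rfl] at h2
    simp only [hψn, add_zero] at h1 h2
    rw [h1] at h2
    have hdR : (0 : ℝ) < (d : ℝ) + 1 := by positivity
    rw [div_left_inj' hdR.ne'] at h2
    norm_num at h2
  rw [hσ0] at hfix hsupp
  have hfin := main_std hd3 h (fun j => u j * l⁻¹) b (c * e (b * σ))
    (fun j => mul_ne_zero (fun hh => by have := hnorm j; rw [hh] at this; simp at this)
      (inv_ne_zero hl0))
    (fun j => by rw [hrec]; ring)
    (fun j => by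
      rw [mul_right_comm, hfix, add_zero, mul_right_comm, mul_inv_cancel₀ hl0, one_mul])
  ext i j
  rw [Matrix.smul_apply, Matrix.one_apply, smul_eq_mul]
  by_cases hij : i = j
  · subst hij
    rw [if_pos rfl, mul_one]
    have h1 := hfin i
    have h2 : u i = l := by
      have h3 : u i * l⁻¹ = 1 := h1
      rw [← mul_one l, ← h3]
      field_simp
    rw [← h2]
    show _ = U (i + σ) i
    rw [hσ0, add_zero]
  · rw [if_neg hij, mul_zero, hsupp i j (by rwa [add_zero])]

theorem ov_eq (ψ : ZMod d → ℂ) (a b : ZMod d) :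
    ov ψ a b = star ψ ⬝ᵥ ((Dm a b).mulVec ψ) := by
  unfold ov
  have h1 : ∀ i, (Dm a b).mulVec ψ i = e (b * (i - a)) * ψ (i - a) := by
    intro i
    rw [Matrix.mulVec, dotProduct, Finset.sum_eq_single (i - a)]
    · simp [Dm]
    · intro j _ hj
      simp only [Dm, Matrix.of_apply]
      rw [if_neg (fun h => hj (by rw [h]; ring)), zero_mul]
    · intro h; exact absurd (Finset.mem_univ _) h
  rw [dotProduct]
  refine Fintype.sum_equiv (Equiv.addRight a) _ _ fun i => ?_
  rw [h1, Pi.star_apply]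
  simp

theorem ov_transport {W M : Matrix (ZMod d) (ZMod d) ℂ} (ψ : ZMod d → ℂ) :
    star ((star W).mulVec ψ) ⬝ᵥ (M.mulVec ((star W).mulVec ψ))
      = star ψ ⬝ᵥ ((W * M * star W).mulVec ψ) := by
  rw [Matrix.star_mulVec, ← Matrix.dotProduct_mulVec, Matrix.mulVec_mulVec, Matrix.mulVec_mulVec]
  congr 2
  rw [Matrix.star_eq_conjTranspose, Matrix.conjTranspose_conjTranspose, mul_assoc]

theorem main (hd3 : d ≠ 3) {ψ : ZMod d → ℂ} (h : Fid ψ) {U : Matrix (ZMod d) (ZMod d) ℂ}
    (hU : star U * U = 1) (hN : Nrm U) {l : ℂ} (hl : U.mulVec ψ = l • ψ) {x z : ZMod d}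
    (hord : ∀ k : ZMod d, k * x = 0 → k * z = 0 → k = 0) {κ : ℂ}
    (hc : U * Dm x z = κ • (Dm x z * U)) : U = l • 1 := by
  obtain ⟨s, t, W, hst, hW, hWD⟩ := exists_basis hord
  have hW' : W * star W = 1 := mul_eq_one_comm.1 hW
  have hfid : Fid ((star W).mulVec ψ) := by
    constructor
    · have h1 := ov_transport (W := W) (M := 1) ψ
      rw [Matrix.one_mulVec, mul_one, hW', Matrix.one_mulVec] at h1
      have h2 : ∀ φ : ZMod d → ℂ, star φ ⬝ᵥ φ = ((∑ j, ‖φ j‖ ^ 2 : ℝ) : ℂ) := by
        intro φ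
        rw [dotProduct, Complex.ofReal_sum]
        exact Finset.sum_congr rfl fun j _ => conj_mul_self' _
      rw [h2, h2, h.1] at h1
      exact_mod_cast h1
    · intro a b hab
      obtain ⟨k, hk, hD⟩ := hWD a b
      rw [ov_eq, ov_transport, hD, Matrix.smul_mul, mul_assoc, hW', mul_one, Matrix.smul_mulVec,
        dotProduct_smul, smul_eq_mul, norm_mul, hk, one_mul, ← ov_eq]
      refine h.2 _ _ ?_
      intro hz
      rw [Prod.mk.injEq] at hz
      apply hab
      have e1 : a = z * (a * s + b * x) - x * (a * t + b * z) := by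
        calc a = a * 1 := by rw [mul_one]
          _ = a * (z * s - t * x) := by rw [hst]
          _ = _ := by ring
      have e2 : b = s * (a * t + b * z) - t * (a * s + b * x) := by
        calc b = b * 1 := by rw [mul_one]
          _ = b * (z * s - t * x) := by rw [hst]
          _ = _ := by ring
      rw [Prod.mk.injEq]
      constructor
      · rw [e1, hz.1, hz.2]; ring
      · rw [e2, hz.1, hz.2]; ring
  -- the transported operator
  set V : Matrix (ZMod d) (ZMod d) ℂ := star W * U * W with hV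
  have hVu : star V * V = 1 := by
    rw [hV, star_mul, star_mul, star_star]
    calc star W * (star U * W) * (star W * U * W) = star W * star U * (W * star W) * U * W := by
          simp only [mul_assoc]
      _ = star W * (star U * U) * W := by rw [hW', mul_one]; simp only [mul_assoc]
      _ = 1 := by rw [hU, mul_one, hW]
  have hVl : V.mulVec ((star W).mulVec ψ) = l • (star W).mulVec ψ := by
    rw [hV, Matrix.mulVec_mulVec, mul_assoc, hW', mul_one, ← Matrix.mulVec_mulVec, hl,
      Matrix.mulVec_smul]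
  have conv : ∀ a b : ZMod d, ∃ k : ℂ, k ≠ 0 ∧
      star W * Dm (a * s + b * x) (a * t + b * z) = k • (Dm a b * star W) := by
    intro a b
    obtain ⟨k, hk, hD⟩ := hWD a b
    have hk0 : k ≠ 0 := by rintro rfl; simp at hk
    refine ⟨k⁻¹, inv_ne_zero hk0, ?_⟩
    have h1 : Dm (a * s + b * x) (a * t + b * z) = k⁻¹ • (W * Dm a b * star W) := by
      rw [hD, Matrix.smul_mul, smul_smul, inv_mul_cancel₀ hk0, one_smul, mul_assoc, hW', mul_one]
    rw [h1, Matrix.mul_smul]
    congr 1
    rw [← mul_assoc, ← mul_assoc, hW, one_mul]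
  have hVZ : ∃ κ' : ℂ, V * Dm 0 1 = κ' • (Dm 0 1 * V) := by
    obtain ⟨k, hk, hD⟩ := hWD 0 1
    obtain ⟨k', hk', hD'⟩ := conv 0 1
    simp only [zero_mul, zero_add, one_mul] at hD hD'
    refine ⟨k * κ * k', ?_⟩
    calc V * Dm 0 1 = star W * U * (W * Dm 0 1) := by rw [hV]; simp only [mul_assoc]
      _ = k • (star W * (U * Dm x z) * W) := by
          rw [hD, Matrix.mul_smul]; simp only [mul_assoc]
      _ = (k * κ) • (star W * Dm x z * U * W) := by
          rw [hc, Matrix.mul_smul, Matrix.smul_mul, smul_smul]; simp only [mul_assoc]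
      _ = _ := by
          rw [hD', Matrix.smul_mul, Matrix.smul_mul, smul_smul, hV]; simp only [mul_assoc]
  have hVX : ∃ (a b : ZMod d) (c : ℂ), V * Dm 1 0 = c • (Dm a b * V) := by
    obtain ⟨k, hk, hD⟩ := hWD 1 0
    obtain ⟨a', b', c, hc'⟩ := hN s t
    simp only [zero_mul, add_zero, one_mul] at hD
    obtain ⟨k', hk', hD'⟩ := conv (z * a' - x * b') (s * b' - t * a')
    have e1 : (z * a' - x * b') * s + (s * b' - t * a') * x = a' := by
      calc _ = a' * (z * s - t * x) := by ring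
        _ = a' := by rw [hst, mul_one]
    have e2 : (z * a' - x * b') * t + (s * b' - t * a') * z = b' := by
      calc _ = b' * (z * s - t * x) := by ring
        _ = b' := by rw [hst, mul_one]
    rw [e1, e2] at hD'
    refine ⟨z * a' - x * b', s * b' - t * a', k * c * k', ?_⟩
    calc V * Dm 1 0 = star W * U * (W * Dm 1 0) := by rw [hV]; simp only [mul_assoc]
      _ = k • (star W * (U * Dm s t) * W) := by
          rw [hD, Matrix.mul_smul]; simp only [mul_assoc]
      _ = (k * c) • (star W * Dm a' b' * U * W) := by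
          rw [hc', Matrix.mul_smul, Matrix.smul_mul, smul_smul]; simp only [mul_assoc]
      _ = _ := by
          rw [hD', Matrix.smul_mul, Matrix.smul_mul, smul_smul, hV]; simp only [mul_assoc]
  obtain ⟨κ', hκ'⟩ := hVZ
  obtain ⟨a, b, c, hX⟩ := hVX
  have hVs := std_matrix hd3 hfid hVu hκ' hX hVl
  have hUV : U = W * V * star W := by
    rw [hV]
    calc U = (W * star W) * U * (W * star W) := by rw [hW', one_mul, mul_one]
      _ = _ := by simp only [mul_assoc]
  rw [hUV, hVs, Matrix.mul_smul, Matrix.smul_mul, mul_one, hW']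

end Pool.Agent.H371.SICF
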