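import Mathlib
import Pool.Agent.H371.SICF.Main

set_option autoImplicit false

/-! # The number of displacement operators commuting with a Clifford symmetry -/

namespace Pool.Agent.H371.SICF

open Finset Complex
open scoped ComplexConjugate
open Pool.Agent.R503.SIC

variable {d : ℕ} [NeZero d]

theorem frame (U : Matrix (ZMod d) (ZMod d) ℂ) (hU : star U * U = 1) :
    ∑ v : ZMod d × ZMod d, ‖Matrix.trace (Dm v.1 v.2 * U)‖ ^ 2 = (d : ℝ) ^ 2 := by
  have htr : ∀ a b : ZMod d, ‖Matrix.trace (Dm a b * U)‖ ^ 2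
      = ‖∑ i, U (i - a) i * e (b * i)‖ ^ 2 := by
    intro a b
    have h1 : Matrix.trace (Dm a b * U) = e (-(b * a)) * ∑ i, U (i - a) i * e (b * i) := by
      rw [Matrix.trace, Finset.mul_sum]
      refine Finset.sum_congr rfl fun i _ => ?_
      rw [Matrix.diag_apply, mulL]
      have h2 : e (b * (i - a)) = e (-(b * a)) * e (b * i) := by
        rw [← e_add]; congr 1; ring
      rw [h2]; ring
    rw [h1, norm_mul, norm_e, one_mul]
  rw [Fintype.sum_prod_type]
  have h1 : ∀ a : ZMod d, ∑ b, ‖Matrix.trace (Dm (a, b).1 (a, b).2 * U)‖ ^ 2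
      = d * ∑ i, ‖U (i - a) i‖ ^ 2 := by
    intro a
    rw [← parseval fun i => U (i - a) i]
    exact Finset.sum_congr rfl fun b _ => htr a b
  rw [Finset.sum_congr rfl fun a _ => h1 a, ← Finset.mul_sum, Finset.sum_comm]
  have h2 : ∀ i : ZMod d, ∑ a, ‖U (i - a) i‖ ^ 2 = 1 := by
    intro i
    have h3 : ∑ a, ‖U (i - a) i‖ ^ 2 = ∑ k, ‖U k i‖ ^ 2 :=
      Fintype.sum_equiv (Equiv.subLeft i) _ _ fun a => rfl
    rw [h3]
    have h4 := congrFun (congrFun hU i) i
    rw [Matrix.mul_apply, Matrix.one_apply_eq] at h4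
    have h5 : ∀ k, star U i k * U k i = ((‖U k i‖ ^ 2 : ℝ) : ℂ) := fun k => by
      rw [Matrix.star_apply]; exact conj_mul_self' _
    rw [Finset.sum_congr rfl fun k _ => h5 k, ← Complex.ofReal_sum] at h4
    exact_mod_cast h4
  rw [Finset.sum_congr rfl fun i _ => h2 i, Finset.sum_const, Finset.card_univ, ZMod.card]
  rw [nsmul_eq_mul, mul_one]; ring

/-- the pairs `v` such that `U` commutes with the displacement operator of `v` up to a scalar -/
def Com (U : Matrix (ZMod d) (ZMod d) ℂ) : Set (ZMod d × ZMod d) :=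
  {v | ∃ c : ℂ, U * Dm v.1 v.2 = c • (Dm v.1 v.2 * U)}

theorem exists_hom {U : Matrix (ZMod d) (ZMod d) ℂ} (hU : star U * U = 1) (hN : Nrm U) :
    ∃ (T : ZMod d × ZMod d →+ ZMod d × ZMod d) (c : ZMod d × ZMod d → ℂ),
      ∀ v, U * Dm v.1 v.2 = c v • (Dm (v + T v).1 (v + T v).2 * U) := by
  have hunit : IsUnit U := ⟨⟨U, star U, mul_eq_one_comm.1 hU, hU⟩, rfl⟩
  have hN' : ∀ v : ZMod d × ZMod d, ∃ (w : ZMod d × ZMod d) (c : ℂ),
      U * Dm v.1 v.2 = c • (Dm w.1 w.2 * U) := by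
    intro v
    obtain ⟨a', b', c, h⟩ := hN v.1 v.2
    exact ⟨(a', b'), c, h⟩
  choose φ c hφ using hN'
  have hadd : ∀ v w, φ (v + w) = φ v + φ w := by
    intro v w
    have h1 : U * (Dm v.1 v.2 * Dm w.1 w.2)
        = (e (v.2 * w.1) * c (v + w)) • (Dm (φ (v + w)).1 (φ (v + w)).2 * U) := by
      rw [Dm_mul, Matrix.mul_smul]
      have := hφ (v + w)
      rw [Prod.fst_add, Prod.snd_add] at this
      rw [this, smul_smul]
    have h2 : U * (Dm v.1 v.2 * Dm w.1 w.2) = (c v * c w * e ((φ v).2 * (φ w).1)) •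
        (Dm (φ v + φ w).1 (φ v + φ w).2 * U) := by
      rw [← mul_assoc, hφ v, Matrix.smul_mul, mul_assoc, hφ w, Matrix.mul_smul, ← mul_assoc,
        Dm_mul, Matrix.smul_mul, smul_smul, smul_smul]
      rfl
    have h3 : e (v.2 * w.1) * c (v + w) ≠ 0 :=
      mul_ne_zero (e_ne_zero _) (c_ne hunit (hφ (v + w)))
    rw [h1] at h2
    have h4 : (e (v.2 * w.1) * c (v + w)) • Dm (φ (v + w)).1 (φ (v + w)).2
        = (c v * c w * e ((φ v).2 * (φ w).1)) • Dm (φ v + φ w).1 (φ v + φ w).2 := by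
      refine cancel hunit ?_
      rw [Matrix.smul_mul, Matrix.smul_mul]; exact h2
    have h5 : Dm (φ (v + w)).1 (φ (v + w)).2 = ((e (v.2 * w.1) * c (v + w))⁻¹ *
        (c v * c w * e ((φ v).2 * (φ w).1))) • Dm (φ v + φ w).1 (φ v + φ w).2 := by
      rw [mul_smul, ← h4, smul_smul, inv_mul_cancel₀ h3, one_smul]
    obtain ⟨e1, e2⟩ := Dm_inj h5
    exact Prod.ext e1 e2
  refine ⟨AddMonoidHom.mk' (fun v => φ v - v) ?_, c, ?_⟩
  · intro v w
    rw [hadd]; abel
  · intro v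
    have : v + (φ v - v) = φ v := by abel
    show U * Dm v.1 v.2 = c v • (Dm (v + (φ v - v)).1 (v + (φ v - v)).2 * U)
    rw [this]
    exact hφ v

theorem mem_ker {U : Matrix (ZMod d) (ZMod d) ℂ} (hU : star U * U = 1)
    {T : ZMod d × ZMod d →+ ZMod d × ZMod d} {c : ZMod d × ZMod d → ℂ}
    (h : ∀ v, U * Dm v.1 v.2 = c v • (Dm (v + T v).1 (v + T v).2 * U)) (v : ZMod d × ZMod d) :
    v ∈ T.ker ↔ v ∈ Com U := by
  have hunit : IsUnit U := ⟨⟨U, star U, mul_eq_one_comm.1 hU, hU⟩, rfl⟩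
  constructor
  · intro hv
    refine ⟨c v, ?_⟩
    have h1 := h v
    rw [AddMonoidHom.mem_ker.1 hv, add_zero] at h1
    exact h1
  · rintro ⟨c', hc'⟩
    have h1 := h v
    rw [hc'] at h1
    have hc0 : c' ≠ 0 := c_ne hunit hc'
    have h4 : c' • Dm v.1 v.2 = c v • Dm (v + T v).1 (v + T v).2 := by
      refine cancel hunit ?_
      rw [Matrix.smul_mul, Matrix.smul_mul]; exact h1
    have h5 : Dm v.1 v.2 = (c'⁻¹ * c v) • Dm (v + T v).1 (v + T v).2 := by
      rw [mul_smul, ← h4, smul_smul, inv_mul_cancel₀ hc0, one_smul]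
    obtain ⟨e1, e2⟩ := Dm_inj h5
    have h6 : v = v + T v := Prod.ext e1 e2
    rw [AddMonoidHom.mem_ker]
    exact left_eq_add.1 h6

theorem norm_trace {U : Matrix (ZMod d) (ZMod d) ℂ} (hU : star U * U = 1)
    {T : ZMod d × ZMod d →+ ZMod d × ZMod d} {c : ZMod d × ZMod d → ℂ}
    (h : ∀ v, U * Dm v.1 v.2 = c v • (Dm (v + T v).1 (v + T v).2 * U)) (v : ZMod d × ZMod d) :
    ‖Matrix.trace (Dm (T v).1 (T v).2 * U)‖ = ‖Matrix.trace U‖ := by
  have hU' : U * star U = 1 := mul_eq_one_comm.1 hU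
  have hc : ‖c v‖ = 1 := by
    have h1 : star (U * Dm v.1 v.2) * (U * Dm v.1 v.2) = 1 := by
      rw [star_mul]
      calc star (Dm v.1 v.2) * star U * (U * Dm v.1 v.2)
          = star (Dm v.1 v.2) * (star U * U) * Dm v.1 v.2 := by simp only [mul_assoc]
        _ = 1 := by rw [hU, mul_one, Dm_unitary]
    rw [h v, star_smul, star_mul, Matrix.smul_mul, Matrix.mul_smul, smul_smul] at h1
    have h2 : star U * star (Dm (v + T v).1 (v + T v).2) * (Dm (v + T v).1 (v + T v).2 * U) = 1 := by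
      calc star U * star (Dm (v + T v).1 (v + T v).2) * (Dm (v + T v).1 (v + T v).2 * U)
          = star U * (star (Dm (v + T v).1 (v + T v).2) * Dm (v + T v).1 (v + T v).2) * U := by
            simp only [mul_assoc]
        _ = 1 := by rw [Dm_unitary, mul_one, hU]
    rw [h2] at h1
    have h3 := congrFun (congrFun h1 0) 0
    rw [Matrix.smul_apply, Matrix.one_apply_eq, smul_eq_mul, mul_one] at h3
    have h4 : conj (c v) * c v = 1 := h3
    rw [conj_mul_self'] at h4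
    have h5 : ‖c v‖ ^ 2 = 1 := by exact_mod_cast h4
    exact (pow_eq_one_iff_of_nonneg (norm_nonneg _) two_ne_zero).1 h5
  have h1 : Dm (v + T v).1 (v + T v).2 = e (-(v.2 * (T v).1)) • (Dm v.1 v.2 * Dm (T v).1 (T v).2) := by
    rw [Dm_mul, smul_smul, ← e_add, neg_add_cancel, e_zero, one_smul]; rfl
  have h2 : star (Dm v.1 v.2) * (U * Dm v.1 v.2)
      = (c v * e (-(v.2 * (T v).1))) • (Dm (T v).1 (T v).2 * U) := by
    rw [h v, h1, Matrix.smul_mul, Matrix.mul_smul, Matrix.mul_smul, smul_smul]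
    congr 1
    calc star (Dm v.1 v.2) * (Dm v.1 v.2 * Dm (T v).1 (T v).2 * U)
        = (star (Dm v.1 v.2) * Dm v.1 v.2) * Dm (T v).1 (T v).2 * U := by simp only [mul_assoc]
      _ = _ := by rw [Dm_unitary, one_mul]
  have h3 := congrArg Matrix.trace h2
  rw [Matrix.trace_mul_comm, mul_assoc, mul_eq_one_comm.1 (Dm_unitary v.1 v.2), mul_one,
    Matrix.trace_smul, smul_eq_mul] at h3
  rw [h3, norm_mul, norm_mul, hc, norm_e, one_mul, one_mul]

theorem trace_bound {U : Matrix (ZMod d) (ZMod d) ℂ} (hU : star U * U = 1) (hN : Nrm U) :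
    ∃ M : AddSubgroup (ZMod d × ZMod d), (∀ v, v ∈ M ↔ v ∈ Com U) ∧
      ‖Matrix.trace U‖ ^ 2 ≤ Nat.card M := by
  classical
  obtain ⟨T, c, h⟩ := exists_hom hU hN
  refine ⟨T.ker, mem_ker hU h, ?_⟩
  have hd : (0 : ℝ) < d := by exact_mod_cast Nat.pos_of_ne_zero (NeZero.ne d)
  have h1 : (Nat.card T.range : ℝ) * ‖Matrix.trace U‖ ^ 2 ≤ (d : ℝ) ^ 2 := by
    rw [← frame U hU]
    have h2 : ∑ r : T.range, ‖Matrix.trace (Dm r.1.1 r.1.2 * U)‖ ^ 2
        = (Nat.card T.range : ℝ) * ‖Matrix.trace U‖ ^ 2 := by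
      have h3 : ∀ r : T.range, ‖Matrix.trace (Dm r.1.1 r.1.2 * U)‖ ^ 2 = ‖Matrix.trace U‖ ^ 2 := by
        rintro ⟨r, v, rfl⟩
        rw [norm_trace hU h]
      rw [Finset.sum_congr rfl fun r _ => h3 r, Finset.sum_const, Finset.card_univ, nsmul_eq_mul,
        Nat.card_eq_fintype_card]
    rw [← h2]
    have h4 : ∑ r : T.range, ‖Matrix.trace (Dm r.1.1 r.1.2 * U)‖ ^ 2
        = ∑ v ∈ univ.filter (fun v => v ∈ T.range), ‖Matrix.trace (Dm v.1 v.2 * U)‖ ^ 2 := by
      rw [Finset.sum_subtype (p := fun v => v ∈ T.range) (univ.filter (fun v => v ∈ T.range))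
        (fun x => by rw [Finset.mem_filter]; exact ⟨fun h => h.2, fun h => ⟨Finset.mem_univ _, h⟩⟩)
        (fun v => ‖Matrix.trace (Dm v.1 v.2 * U)‖ ^ 2)]
    rw [h4]
    exact Finset.sum_le_sum_of_subset_of_nonneg (Finset.subset_univ _) fun _ _ _ => sq_nonneg _
  have h2 : (Nat.card T.range : ℝ) * Nat.card T.ker = (d : ℝ) ^ 2 := by
    have e1 := AddSubgroup.card_eq_card_quotient_mul_card_addSubgroup T.ker
    rw [Nat.card_congr (QuotientAddGroup.quotientKerEquivRange T).toEquiv, Nat.card_prod,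
      Nat.card_zmod] at e1
    have e2 : ((d * d : ℕ) : ℝ) = ((Nat.card T.range * Nat.card T.ker : ℕ) : ℝ) := by rw [e1]
    push_cast at e2
    rw [← e2]; ring
  have h3 : (0 : ℝ) < Nat.card T.range := by exact_mod_cast Nat.card_pos
  refine le_of_mul_le_mul_left ?_ h3
  rw [h2]; exact h1

theorem ov_ne {ψ : ZMod d → ℂ} (h : Fid ψ) (a b : ZMod d) : ov ψ a b ≠ 0 := by
  intro h0
  by_cases hab : (a, b) = (0, 0)
  · rw [Prod.mk.injEq] at hab
    rw [hab.1, hab.2, ov_zero h.1] at h0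
    exact one_ne_zero h0
  · have h1 := h.2 a b hab
    rw [h0, norm_zero] at h1
    have : (0 : ℝ) < 1 / ((d : ℝ) + 1) := by positivity
    rw [← h1] at this
    norm_num at this

theorem unit_dot {ψ : ZMod d → ℂ} (h : ∑ j, ‖ψ j‖ ^ 2 = 1) : star ψ ⬝ᵥ ψ = 1 := by
  have h2 : star ψ ⬝ᵥ ψ = ((∑ j, ‖ψ j‖ ^ 2 : ℝ) : ℂ) := by
    rw [dotProduct, Complex.ofReal_sum]
    exact Finset.sum_congr rfl fun j _ => conj_mul_self' _
  rw [h2, h, Complex.ofReal_one]

theorem star_dot (M : Matrix (ZMod d) (ZMod d) ℂ) (x y : ZMod d → ℂ) :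
    star (M.mulVec x) ⬝ᵥ y = star x ⬝ᵥ ((star M).mulVec y) := by
  rw [Matrix.star_mulVec, ← Matrix.dotProduct_mulVec]
  rfl

theorem norm_l {ψ : ZMod d → ℂ} (h : ∑ j, ‖ψ j‖ ^ 2 = 1) {U : Matrix (ZMod d) (ZMod d) ℂ}
    (hU : star U * U = 1) {l : ℂ} (hl : U.mulVec ψ = l • ψ) : conj l * l = 1 := by
  have h1 := star_dot U ψ (U.mulVec ψ)
  rw [Matrix.mulVec_mulVec, hU, Matrix.one_mulVec, unit_dot h, hl, star_smul, smul_dotProduct,
    dotProduct_smul, unit_dot h, smul_eq_mul, smul_eq_mul, mul_one] at h1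
  exact h1

theorem exact_comm {ψ : ZMod d → ℂ} (hψ : Fid ψ) {U : Matrix (ZMod d) (ZMod d) ℂ}
    (hU : star U * U = 1) {l : ℂ} (hl : U.mulVec ψ = l • ψ) {v : ZMod d × ZMod d}
    (hv : v ∈ Com U) : U * Dm v.1 v.2 = Dm v.1 v.2 * U := by
  obtain ⟨c, hc⟩ := hv
  have hl1 := norm_l hψ.1 hU hl
  have h1 : U.mulVec ((Dm v.1 v.2).mulVec ψ) = (c * l) • (Dm v.1 v.2).mulVec ψ := by
    rw [Matrix.mulVec_mulVec, hc, Matrix.smul_mulVec, ← Matrix.mulVec_mulVec, hl,
      Matrix.mulVec_smul, smul_smul]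
  have h2 := star_dot U ψ (U.mulVec ((Dm v.1 v.2).mulVec ψ))
  rw [Matrix.mulVec_mulVec _ (star U), hU, Matrix.one_mulVec, h1, hl, star_smul, smul_dotProduct,
    dotProduct_smul, smul_eq_mul, smul_eq_mul, ← ov_eq] at h2
  have h3 : c * (conj l * l) * ov ψ v.1 v.2 = ov ψ v.1 v.2 := by
    have h4 : conj l * (c * l * ov ψ v.1 v.2) = ov ψ v.1 v.2 := h2
    calc c * (conj l * l) * ov ψ v.1 v.2 = conj l * (c * l * ov ψ v.1 v.2) := by ring
      _ = ov ψ v.1 v.2 := h4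
  rw [hl1, mul_one] at h3
  have h4 : c = 1 := mul_right_cancel₀ (ov_ne hψ v.1 v.2) (by rw [h3, one_mul])
  rw [hc, h4, one_smul]

theorem gram (ψ : ZMod d → ℂ) (v w : ZMod d × ZMod d) :
    ‖star ((Dm v.1 v.2).mulVec ψ) ⬝ᵥ ((Dm w.1 w.2).mulVec ψ)‖
      = ‖ov ψ (w - v).1 (w - v).2‖ := by
  rw [star_dot, Matrix.mulVec_mulVec]
  have h1 : Dm w.1 w.2 = e (-(v.2 * (w - v).1)) • (Dm v.1 v.2 * Dm (w - v).1 (w - v).2) := by
    rw [Dm_mul, smul_smul, ← e_add, neg_add_cancel, e_zero, one_smul, Prod.fst_sub, Prod.snd_sub]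
    congr 1 <;> ring
  rw [h1, Matrix.mul_smul, ← mul_assoc, Dm_unitary, one_mul, Matrix.smul_mulVec, dotProduct_smul,
    smul_eq_mul, norm_mul, norm_e, one_mul, ← ov_eq]

/-- the inequality between the number of commuting displacement operators and the trace -/
theorem gram_bound {ψ : ZMod d → ℂ} (hψ : Fid ψ) {U : Matrix (ZMod d) (ZMod d) ℂ}
    (hU : star U * U = 1) {l : ℂ} (hl : U.mulVec ψ = l • ψ) (M : AddSubgroup (ZMod d × ZMod d))
    (hM : ∀ v ∈ M, v ∈ Com U) :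
    (d : ℝ) - ‖Matrix.trace U‖ ≤
      2 * ((d : ℝ) - ((d : ℝ) + 1) / ((d : ℝ) + Nat.card M) * Nat.card M) := by
  classical
  have hd : (0 : ℝ) < d := by exact_mod_cast Nat.pos_of_ne_zero (NeZero.ne d)
  have hl1 := norm_l hψ.1 hU hl
  set f : M → ZMod d → ℂ := fun v => (Dm v.1.1 v.1.2).mulVec ψ with hf
  set g : ℝ := ((Nat.card M : ℕ) : ℝ) with hg
  have hg0 : 0 < g := by rw [hg]; exact_mod_cast Nat.card_pos
  have hgF : (Fintype.card M : ℝ) = g := by rw [hg, Nat.card_eq_fintype_card]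
  set Q : Matrix (ZMod d) (ZMod d) ℂ := ∑ v : M, Matrix.vecMulVec (f v) (star (f v)) with hQ
  set K : Matrix (ZMod d) (ZMod d) ℂ := 1 - conj l • U with hK
  have hKQ : K * Q = 0 := by
    rw [hQ, Finset.mul_sum]
    refine Finset.sum_eq_zero fun v _ => ?_
    rw [Matrix.mul_vecMulVec]
    have h1 : K.mulVec (f v) = 0 := by
      rw [hK, Matrix.sub_mulVec, Matrix.one_mulVec, Matrix.smul_mulVec]
      have h2 : U.mulVec (f v) = l • f v := by
        show U.mulVec ((Dm v.1.1 v.1.2).mulVec ψ) = l • (Dm v.1.1 v.1.2).mulVec ψ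
        rw [Matrix.mulVec_mulVec, exact_comm hψ hU hl (hM v.1 v.2), ← Matrix.mulVec_mulVec, hl,
          Matrix.mulVec_smul]
      rw [h2, smul_smul, hl1, one_smul, sub_self]
    rw [h1, Matrix.zero_vecMulVec]
  have hQs : star Q = Q := by
    rw [hQ, Matrix.star_eq_conjTranspose, Matrix.conjTranspose_sum]
    refine Finset.sum_congr rfl fun v _ => ?_
    rw [Matrix.conjTranspose_vecMulVec, star_star]
  have hKs : K * star K = K + star K := by
    have h1 : star K = 1 - l • star U := by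
      rw [hK, star_sub, star_one, star_smul]
      congr 2
      exact Complex.conj_conj l
    have h2 : (conj l • U) * (l • star U) = 1 := by
      rw [Matrix.smul_mul, Matrix.mul_smul, smul_smul, hl1, one_smul, mul_eq_one_comm.1 hU]
    have h3 : ∀ A B : Matrix (ZMod d) (ZMod d) ℂ, (1 - A) * (1 - B) = 1 - A - B + A * B := by
      intro A B; noncomm_ring
    rw [h1, hK, h3, h2]
    abel
  set c : ℝ := ((d : ℝ) + 1) / ((d : ℝ) + g) with hc
  set Y : Matrix (ZMod d) (ZMod d) ℂ := 1 - (c : ℂ) • Q with hY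
  have hKY : K * Y = K := by
    rw [hY, mul_sub, mul_one, Matrix.mul_smul, hKQ, smul_zero, sub_zero]
  have hYs : star Y = Y := by
    rw [hY, star_sub, star_one, star_smul, hQs]
    congr 2
    exact Complex.conj_ofReal c
  have hYK : Y * star K = star K := by
    have := congrArg star hKY
    rwa [star_mul, hYs] at this
  have hE : (K - (2 : ℂ) • Y) * star (K - (2 : ℂ) • Y) = (4 : ℂ) • (Y * Y) - K - star K := by
    rw [star_sub, star_smul, hYs]
    have h2 : star (2 : ℂ) = 2 := by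
      have : ((2 : ℝ) : ℂ) = 2 := by norm_num
      rw [← this]; exact Complex.conj_ofReal 2
    rw [h2, sub_mul, mul_sub, mul_sub, Matrix.smul_mul, Matrix.smul_mul, Matrix.mul_smul,
      Matrix.mul_smul, hKs, hKY, hYK, smul_smul]
    have h3 : (2 : ℂ) * 2 = 4 := by norm_num
    rw [h3]
    have h4 : (2 : ℂ) • K = K + K := two_smul ℂ K
    have h5 : (2 : ℂ) • star K = star K + star K := two_smul ℂ (star K)
    rw [h4, h5]
    abel
  have hpos : ∀ E : Matrix (ZMod d) (ZMod d) ℂ, 0 ≤ (Matrix.trace (E * star E)).re := by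
    intro E
    rw [Matrix.trace, Complex.re_sum]
    refine Finset.sum_nonneg fun i _ => ?_
    rw [Matrix.diag_apply, Matrix.mul_apply, Complex.re_sum]
    refine Finset.sum_nonneg fun j _ => ?_
    rw [Matrix.star_apply]
    have h1 : E i j * star (E i j) = ((‖E i j‖ ^ 2 : ℝ) : ℂ) := by
      rw [mul_comm]; exact conj_mul_self' _
    rw [h1, Complex.ofReal_re]
    positivity
  have h0 := hpos (K - (2 : ℂ) • Y)
  rw [hE, Matrix.trace_sub, Matrix.trace_sub, Matrix.trace_smul] at h0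
  have htQ : Matrix.trace Q = (g : ℂ) := by
    rw [hQ, Matrix.trace_sum]
    have h1 : ∀ v : M, Matrix.trace (Matrix.vecMulVec (f v) (star (f v))) = 1 := by
      intro v
      rw [Matrix.trace_vecMulVec, dotProduct_comm]
      show star ((Dm v.1.1 v.1.2).mulVec ψ) ⬝ᵥ ((Dm v.1.1 v.1.2).mulVec ψ) = 1
      rw [star_dot, Matrix.mulVec_mulVec, Dm_unitary, Matrix.one_mulVec, unit_dot hψ.1]
    rw [Finset.sum_congr rfl fun v _ => h1 v, Finset.sum_const, Finset.card_univ, nsmul_eq_mul,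
      mul_one, ← hgF]
    norm_cast
  have htQQ : Matrix.trace (Q * Q) = ((g * (1 + (g - 1) / ((d : ℝ) + 1)) : ℝ) : ℂ) := by
    rw [hQ, Finset.sum_mul_sum, Matrix.trace_sum]
    have h1 : ∀ v w : M, Matrix.trace (Matrix.vecMulVec (f v) (star (f v)) *
        Matrix.vecMulVec (f w) (star (f w))) = ((‖ov ψ (w - v).1.1 (w - v).1.2‖ ^ 2 : ℝ) : ℂ) := by
      intro v w
      rw [Matrix.vecMulVec_mul_vecMulVec, Matrix.trace_vecMulVec, dotProduct_smul]
      have h2 : f v ⬝ᵥ star (f w) = conj (star (f v) ⬝ᵥ f w) := by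
        rw [dotProduct, dotProduct, map_sum]
        refine Finset.sum_congr rfl fun j _ => ?_
        rw [map_mul, Pi.star_apply, Pi.star_apply]
        show _ = conj (conj (f v j)) * conj (f w j)
        rw [Complex.conj_conj]; rfl
      rw [h2, smul_eq_mul, mul_comm, conj_mul_self']
      have h3 := gram ψ v.1 w.1
      show ((‖star ((Dm v.1.1 v.1.2).mulVec ψ) ⬝ᵥ ((Dm w.1.1 w.1.2).mulVec ψ)‖ ^ 2 : ℝ) : ℂ) = _
      rw [h3]; rfl
    have h2 : ∀ v : M, Matrix.trace (∑ w : M, Matrix.vecMulVec (f v) (star (f v)) *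
        Matrix.vecMulVec (f w) (star (f w))) = ((1 + (g - 1) / ((d : ℝ) + 1) : ℝ) : ℂ) := by
      intro v
      rw [Matrix.trace_sum, Finset.sum_congr rfl fun w _ => h1 v w, ← Complex.ofReal_sum]
      congr 1
      have h3 : ∑ w : M, ‖ov ψ (w - v).1.1 (w - v).1.2‖ ^ 2 = ∑ w : M, ‖ov ψ w.1.1 w.1.2‖ ^ 2 :=
        Fintype.sum_equiv (Equiv.subRight v) _ _ fun w => rfl
      rw [h3, ← Finset.add_sum_erase _ _ (Finset.mem_univ (0 : M))]
      have h4 : ∀ w ∈ Finset.univ.erase (0 : M), ‖ov ψ w.1.1 w.1.2‖ ^ 2 = 1 / ((d : ℝ) + 1) := by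
        intro w hw
        refine hψ.2 _ _ ?_
        intro hz
        exact (Finset.ne_of_mem_erase hw) (Subtype.ext hz)
      rw [Finset.sum_congr rfl h4, Finset.sum_const, Finset.card_erase_of_mem (Finset.mem_univ _),
        Finset.card_univ, nsmul_eq_mul, Nat.cast_sub Fintype.card_pos, hgF]
      have h5 : ov ψ (0 : M).1.1 (0 : M).1.2 = 1 := ov_zero hψ.1
      rw [h5, norm_one]
      push_cast
      ring
    rw [Finset.sum_congr rfl fun v _ => h2 v, Finset.sum_const, Finset.card_univ, nsmul_eq_mul]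
    have h6 : ((Fintype.card M : ℕ) : ℂ) = ((g : ℝ) : ℂ) := by rw [← hgF]; norm_cast
    rw [h6, ← Complex.ofReal_mul]
  have htY : Matrix.trace (Y * Y) = (((d : ℝ) - c * g : ℝ) : ℂ) := by
    have h1 : Y * Y = 1 - (2 * (c : ℂ)) • Q + ((c : ℂ) ^ 2) • (Q * Q) := by
      have h3 : ∀ A : Matrix (ZMod d) (ZMod d) ℂ, (1 - A) * (1 - A) = 1 - (A + A) + A * A := by
        intro A; noncomm_ring
      have h2 : (2 * (c : ℂ)) • Q = (c : ℂ) • Q + (c : ℂ) • Q := by rw [← add_smul]; congr 1; ring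
      rw [hY, h3, h2, sq, Matrix.smul_mul, Matrix.mul_smul, smul_smul]
    rw [h1, Matrix.trace_add, Matrix.trace_sub, Matrix.trace_one, Matrix.trace_smul,
      Matrix.trace_smul, htQ, htQQ, ZMod.card, smul_eq_mul, smul_eq_mul]
    have h3 : c ^ 2 * (g * (1 + (g - 1) / ((d : ℝ) + 1))) = c * g := by
      rw [hc]
      have h4 : (d : ℝ) + 1 ≠ 0 := by positivity
      have h5 : (d : ℝ) + g ≠ 0 := by positivity
      field_simp
      ring
    have h6 : (c : ℂ) ^ 2 * ((g * (1 + (g - 1) / ((d : ℝ) + 1)) : ℝ) : ℂ) = ((c * g : ℝ) : ℂ) := by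
      rw [← h3]; push_cast; ring
    rw [h6]
    push_cast
    ring
  have htK : (Matrix.trace K).re ≥ (d : ℝ) - ‖Matrix.trace U‖ := by
    rw [hK, Matrix.trace_sub, Matrix.trace_one, Matrix.trace_smul, ZMod.card, Complex.sub_re,
      Complex.natCast_re, smul_eq_mul]
    have h1 := Complex.re_le_norm (conj l * Matrix.trace U)
    have h2 : ‖l‖ = 1 := by
      have h3 := hl1
      rw [conj_mul_self'] at h3
      have h4 : ‖l‖ ^ 2 = 1 := by exact_mod_cast h3
      exact (pow_eq_one_iff_of_nonneg (norm_nonneg _) two_ne_zero).1 h4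
    rw [norm_mul, norm_conj', h2, one_mul] at h1
    linarith
  have htKs : (Matrix.trace (star K)).re = (Matrix.trace K).re := by
    rw [Matrix.star_eq_conjTranspose, Matrix.trace_conjTranspose]
    exact Complex.conj_re _
  rw [htY, Complex.sub_re, Complex.sub_re, htKs, smul_eq_mul] at h0
  have h9 : ((4 : ℂ) * (((d : ℝ) - c * g : ℝ) : ℂ)).re = 4 * ((d : ℝ) - c * g) := by
    have : (4 : ℂ) * (((d : ℝ) - c * g : ℝ) : ℂ) = ((4 * ((d : ℝ) - c * g) : ℝ) : ℂ) := by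
      push_cast; ring
    rw [this, Complex.ofReal_re]
  rw [h9] at h0
  linarith

end Pool.Agent.H371.SICF
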